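import Pool.Agent.Q239.CentralLogDeriv

/-!
# No uniform asymptotic for the extreme values of `L'/L(1/2, χ)` over all directions

By the functional equation the real part of `L'/L(1/2, χ)` is `-(1/2) log q + O(1)` for every nonprincipal
character `χ` modulo the prime `q` with `L(1/2, χ) ≠ 0`.  So in the direction `θ = 0` the maximum over the
characters is negative for large `q`, and in the direction `θ = π` it is `(1/2) log q + O(1)`: no asymptotic
`M_q(θ) ~ F(q)` with positive `F` holds uniformly in `θ`.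
-/

set_option autoImplicit false

open Complex DirichletCharacter

namespace Pool.Agent.Results.MP_50d0fc_nt.NoUniformAsymptotic

/-- The values `Re (e^{-iθ} L'/L(1/2, χ))`, for the characters `χ ≠ χ₀` modulo `q` with `L(1/2, χ) ≠ 0`;
`M_q(θ)` is the maximum of this set. -/
def values (q : ℕ) [NeZero q] (θ : ℝ) : Set ℝ :=
  {v | ∃ χ : DirichletCharacter ℂ q, χ ≠ 1 ∧ LFunction χ (1 / 2) ≠ 0 ∧
    v = (exp (-(θ : ℂ) * I) * (deriv (LFunction χ) (1 / 2) / LFunction χ (1 / 2))).re}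

/-- `M_q(θ) ~ F(q)` uniformly for `θ ∈ [0, 2π]`, as `q → ∞` through primes: for every `ε > 0` and all large
primes `q` the set `values q θ` has a maximum `M` with `|M - F(q)| ≤ ε F(q)`, for all `θ ∈ [0, 2π]`. -/
def UniformAsymptotic (F : ℕ → ℝ) : Prop :=
  ∀ ε : ℝ, 0 < ε → ∃ Q : ℕ, ∀ (q : ℕ) [NeZero q], q.Prime → Q ≤ q →
    ∀ θ : ℝ, 0 ≤ θ → θ ≤ 2 * Real.pi → ∃ M : ℝ, IsGreatest (values q θ) M ∧ |M - F q| ≤ ε * F q

/-- (1) There is an absolute constant `C` such that `|Re L'/L(1/2, χ) + (1/2) log q| ≤ C` for all primes `q` and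
all nonprincipal characters `χ` modulo `q` with `L(1/2, χ) ≠ 0`.  (2) For no function `F` which is positive
for all large primes the asymptotic `M_q(θ) ~ F(q)` holds uniformly for `θ ∈ [0, 2π]`. -/
theorem result :
    (∃ C : ℝ, ∀ (q : ℕ) [NeZero q], q.Prime → ∀ χ : DirichletCharacter ℂ q, χ ≠ 1 → LFunction χ (1 / 2) ≠ 0 →
      |(deriv (LFunction χ) (1 / 2) / LFunction χ (1 / 2)).re + Real.log q / 2| ≤ C) ∧
    ∀ F : ℕ → ℝ, (∃ Q : ℕ, ∀ q : ℕ, q.Prime → Q ≤ q → 0 < F q) → ¬ UniformAsymptotic F := by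
  refine ⟨⟨Q239.Central.C0, ?_⟩, ?_⟩
  · intro q _ hq χ h1 hL
    rw [Q239.Central.re_logDeriv_half χ hq.one_lt.ne' (Q239.Central.isPrimitive_of_prime hq h1) h1 hL]
    have h := Q239.Central.norm_logDeriv_gammaFactor χ
    have h2 := Complex.abs_re_le_norm (logDeriv (gammaFactor χ) (1 / 2))
    rw [show -(Real.log q / 2) - (logDeriv (gammaFactor χ) (1 / 2)).re + Real.log q / 2 =
      -(logDeriv (gammaFactor χ) (1 / 2)).re by ring, abs_neg]
    exact h2.trans h
  · rintro F ⟨Q₀, hF⟩ h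
    obtain ⟨Q, hQ⟩ := h (1 / 2) (by norm_num)
    obtain ⟨N, hN⟩ : ∃ N : ℕ, Real.exp (2 * Q239.Central.C0) < N := exists_nat_gt _
    obtain ⟨q, hq, hqp⟩ := Nat.exists_infinite_primes (max (max Q N) Q₀)
    have hqQ : Q ≤ q := (le_max_left _ _).trans ((le_max_left _ _).trans hq)
    have hqN : N ≤ q := (le_max_right _ _).trans ((le_max_left _ _).trans hq)
    have hq0 : Q₀ ≤ q := (le_max_right _ _).trans hq
    have : NeZero q := ⟨hqp.pos.ne'⟩
    have hlog : 2 * Q239.Central.C0 < Real.log q := by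
      rw [Real.lt_log_iff_exp_lt (by exact_mod_cast hqp.pos)]
      exact hN.trans_le (by exact_mod_cast hqN)
    obtain ⟨M, ⟨⟨χ, hχ1, hL, hM⟩, -⟩, hle⟩ := hQ q hqp hqQ 0 (le_refl _) (by positivity)
    have hneg := Q239.Central.re_logDeriv_neg hqp hlog χ hχ1 hL
    rw [Complex.ofReal_zero, neg_zero, zero_mul, Complex.exp_zero, one_mul] at hM
    have hpos := hF q hqp hq0
    have := abs_le.1 hle
    rw [hM] at this
    linarith [this.1]

end Pool.Agent.Results.MP_50d0fc_nt.NoUniformAsymptotic
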